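import Pool.Agent.Helper95.HV.Stmts
import Pool.Agent.Helper82.LN.VIR

/-!
# HV, rows V2S and V2I: upper bound of the second derivative of the potential energy
-/

set_option autoImplicit false

namespace Pool.Agent.Helper82.HV

open MeasureTheory Filter Pool.Agent.Helper95.PW Pool.Agent.Helper95.LN Pool.Agent.Helper95.HV
open Pool.Agent.Helper82.LN

/-! ### algebra -/

theorem Tq_zero (v w : R3) : Tq 0 v w = 0 := by
  unfold Tq
  have : nr (0 : R3) = 0 := by
    unfold nr
    simp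
  rw [this]
  simp

theorem Tq_zv (ξ : R3) : Tq ξ 0 0 = 0 := by
  unfold Tq
  simp

/-- the one particle part -/
noncomputable def A1 (g : R3 → ℝ) (y p : R3) : ℝ :=
  Tq (y - p) (gv g y) (gv g y) - (∑ i, gq g y i * (y i - p i)) / nr (y - p) ^ 3

/-- the pair term -/
noncomputable def P2 {n : ℕ} (g : R3 → ℝ) (x : Cf n) (k l : Fin n) : ℝ :=
  Tq (x k - x l) (gv g (x k) - gv g (x l)) (gv g (x k) - gv g (x l)) -
    (∑ i, (gq g (x k) i - gq g (x l) i) * (x k i - x l i)) / nr (x k - x l) ^ 3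

theorem P2_eq {n : ℕ} (g : R3 → ℝ) (x : Cf n) (k l : Fin n) :
    P2 g x k l = A1 g (x k) (x l) + A1 g (x l) (x k) -
      2 * Tq (x k - x l) (gv g (x k)) (gv g (x l)) := by
  unfold P2 A1 Tq
  rw [vir_neg (x l) (x k)]
  simp only [Fin.sum_univ_three, Pi.sub_apply]
  ring

theorem A1_self (g : R3 → ℝ) (y : R3) : A1 g y y = 0 := by
  unfold A1
  rw [sub_self, Tq_zero]
  simp

theorem ci_gen {n M : ℕ} (X : Fin M → R3) (d : ℝ) (hd : 0 < d) (hS : Sep X d) (x : Cf n)
    (k : Fin n) (B : ℝ) (hB : (∀ j, d / 2 < nr (x k - X j)) → B = 0) :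
    ∑ i, ci X (3 / 2 * d) x i k * B = B := by
  by_cases h : ∀ j, d / 2 < nr (x k - X j)
  · rw [hB h]
    simp
  · push Not at h
    obtain ⟨i0, h0⟩ := h
    have h2 : ci X (3 / 2 * d) x i0 k = 1 := by
      unfold ci
      rw [if_pos (by linarith)]
    rw [Finset.sum_eq_single i0, h2, one_mul]
    · intro j _ hj
      have h1 := ci_dis X d hd hS x j i0 hj k
      rw [h2, mul_one] at h1
      rw [h1, zero_mul]
    · intro h; exact absurd (Finset.mem_univ _) h

theorem ci_gen2 {n M : ℕ} (X : Fin M → R3) (d : ℝ) (hd : 0 < d) (hS : Sep X d) (x : Cf n)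
    (k l : Fin n) (B : ℝ) (hB : (∀ j, d / 2 < nr (x k - X j)) → B = 0) :
    (1 - ∑ i, ci X (3 / 2 * d) x i k * ci X (3 / 2 * d) x i l) * B =
      ∑ i, ci X (3 / 2 * d) x i k * ((1 - ci X (3 / 2 * d) x i l) * B) := by
  have h1 := ci_gen X d hd hS x k B hB
  rw [sub_mul, one_mul]
  nth_rewrite 1 [← h1]
  rw [Finset.sum_mul, ← Finset.sum_sub_distrib]
  refine Finset.sum_congr rfl fun i _ => ?_
  ring

/-- far field of the second derivatives -/
noncomputable def FG {n M : ℕ} (d : ℝ) (X : Fin M → R3) (Z : Fin M → ℝ) (x : Cf n) (i : Fin M)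
    (v w y : R3) : ℝ :=
  (∑ l, if nr (x l - X i) < 3 / 2 * d then 0 else Tq (y - x l) v w) -
    ∑ j, if j = i then 0 else Z j * Tq (y - X j) v w

theorem A1_zero (g : R3 → ℝ) (y p : R3) (h : ∀ i, pd i g y = 0) : A1 g y p = 0 := by
  have h1 : gv g y = 0 := by
    funext i
    exact h i
  have h2 : ∀ i, gq g y i = 0 := by
    intro i
    unfold gq
    simp [h]
  unfold A1
  rw [h1, Tq_zv]
  simp [h2]

theorem D2_split {n M : ℕ} (X : Fin M → R3) (Z : Fin M → ℝ) (d : ℝ) (hd : 0 < d) (hS : Sep X d)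
    (g : R3 → ℝ) (hg : ∀ y, (∀ j, d / 2 < nr (y - X j)) → ∀ i, pd i g y = 0) (x : Cf n) :
    D2 X Z g x =
      (∑ k, ∑ l, if k < l then (∑ i, ci X (3 / 2 * d) x i k * ci X (3 / 2 * d) x i l) *
        P2 g x k l else 0) +
      (∑ k, ∑ i, ci X (3 / 2 * d) x i k * (FG d X Z x i (gv g (x k)) (gv g (x k)) (x k) -
        ∑ m, gq g (x k) m * farE d X Z x i m (x k))) +
      2 * -(∑ k, ∑ l, if k < l then
        (1 - ∑ i, ci X (3 / 2 * d) x i k * ci X (3 / 2 * d) x i l) *
          Tq (x k - x l) (gv g (x k)) (gv g (x l)) else 0) +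
      ∑ k, ∑ i, ci X (3 / 2 * d) x i k * (Z i * -A1 g (x k) (X i)) := by
  set c : Fin M → Fin n → ℝ := fun i k => ci X (3 / 2 * d) x i k with hc
  have hz : ∀ k p, (∀ j, d / 2 < nr (x k - X j)) → A1 g (x k) p = 0 :=
    fun k p h => A1_zero g (x k) p (hg (x k) h)
  -- the pairs
  have e1 : (∑ k, ∑ l, if k < l then P2 g x k l else 0) =
      (∑ k, ∑ l, if k < l then (∑ i, c i k * c i l) * P2 g x k l else 0) +
      (∑ k, ∑ l, (1 - ∑ i, c i k * c i l) * A1 g (x k) (x l)) +
      2 * -(∑ k, ∑ l, if k < l then (1 - ∑ i, c i k * c i l) *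
          Tq (x k - x l) (gv g (x k)) (gv g (x l)) else 0) := by
    rw [sum_lt_symm (fun k l => (1 - ∑ i, c i k * c i l) * A1 g (x k) (x l))
      (fun k => by rw [A1_self, mul_zero])]
    rw [mul_neg, ← sub_eq_add_neg, Finset.mul_sum, ← Finset.sum_add_distrib,
      ← Finset.sum_sub_distrib]
    refine Finset.sum_congr rfl fun k _ => ?_
    rw [Finset.mul_sum, ← Finset.sum_add_distrib, ← Finset.sum_sub_distrib]
    refine Finset.sum_congr rfl fun l _ => ?_
    split_ifs
    · have hs : ∑ i, c i l * c i k = ∑ i, c i k * c i l :=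
        Finset.sum_congr rfl fun i _ => mul_comm _ _
      rw [hs, P2_eq]
      ring
    · ring
  have e2 : ∀ k, ∑ l, (1 - ∑ i, c i k * c i l) * A1 g (x k) (x l) =
      ∑ i, c i k * ∑ l, (1 - c i l) * A1 g (x k) (x l) := by
    intro k
    have h1 : ∀ l, (1 - ∑ i, c i k * c i l) * A1 g (x k) (x l) =
        ∑ i, c i k * ((1 - c i l) * A1 g (x k) (x l)) := fun l =>
      ci_gen2 X d hd hS x k l _ (hz k _)
    simp_rw [h1]
    rw [Finset.sum_comm]
    refine Finset.sum_congr rfl fun i _ => ?_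
    rw [Finset.mul_sum]
  have e3 : ∀ k, ∑ j, Z j * A1 g (x k) (X j) =
      ∑ i, c i k * ∑ j, Z j * A1 g (x k) (X j) := by
    intro k
    rw [ci_gen X d hd hS x k _ (fun h => by simp [hz k _ h])]
  have e4 : ∀ (k : Fin n) (i : Fin M), FG d X Z x i (gv g (x k)) (gv g (x k)) (x k) -
      ∑ m, gq g (x k) m * farE d X Z x i m (x k) =
      (∑ l, (1 - c i l) * A1 g (x k) (x l)) -
        ((∑ j, Z j * A1 g (x k) (X j)) - Z i * A1 g (x k) (X i)) := by
    intro k i
    have h1 : ∑ m, gq g (x k) m * farE d X Z x i m (x k) =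
        (∑ l, (1 - c i l) * ((∑ m, gq g (x k) m * (x k m - x l m)) / nr (x k - x l) ^ 3)) -
        ((∑ j, Z j * ((∑ m, gq g (x k) m * (x k m - X j m)) / nr (x k - X j) ^ 3)) -
          Z i * ((∑ m, gq g (x k) m * (x k m - X i m)) / nr (x k - X i) ^ 3)) := by
      have h2 : ∀ m, farE d X Z x i m (x k) =
          (∑ l, (1 - c i l) * ((x k m - x l m) / nr (x k - x l) ^ 3)) -
          ((∑ j, Z j * ((x k m - X j m) / nr (x k - X j) ^ 3)) -
            Z i * ((x k m - X i m) / nr (x k - X i) ^ 3)) := by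
        intro m
        unfold farE
        congr 1
        · refine Finset.sum_congr rfl fun l _ => ?_
          simp only [hc]
          unfold ci
          split_ifs
          · ring
          · ring
        · rw [← Finset.sum_erase_add Finset.univ _ (Finset.mem_univ i),
            ← Finset.sum_erase_add Finset.univ
              (fun j => Z j * ((x k m - X j m) / nr (x k - X j) ^ 3)) (Finset.mem_univ i)]
          rw [if_pos rfl, add_zero, add_sub_cancel_right]
          refine Finset.sum_congr rfl fun j hj => ?_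
          rw [if_neg (Finset.ne_of_mem_erase hj)]
      simp only [h2, Fin.sum_univ_three]
      simp only [mul_sub, Finset.mul_sum]
      have h5 : ∀ l, (1 - c i l) * ((gq g (x k) 0 * (x k 0 - x l 0) + gq g (x k) 1 *
          (x k 1 - x l 1) + gq g (x k) 2 * (x k 2 - x l 2)) / nr (x k - x l) ^ 3) =
          gq g (x k) 0 * ((1 - c i l) * ((x k 0 - x l 0) / nr (x k - x l) ^ 3)) +
          gq g (x k) 1 * ((1 - c i l) * ((x k 1 - x l 1) / nr (x k - x l) ^ 3)) +
          gq g (x k) 2 * ((1 - c i l) * ((x k 2 - x l 2) / nr (x k - x l) ^ 3)) :=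
        fun l => by ring
      have h6 : ∀ j, Z j * ((gq g (x k) 0 * (x k 0 - X j 0) + gq g (x k) 1 *
          (x k 1 - X j 1) + gq g (x k) 2 * (x k 2 - X j 2)) / nr (x k - X j) ^ 3) =
          gq g (x k) 0 * (Z j * ((x k 0 - X j 0) / nr (x k - X j) ^ 3)) +
          gq g (x k) 1 * (Z j * ((x k 1 - X j 1) / nr (x k - X j) ^ 3)) +
          gq g (x k) 2 * (Z j * ((x k 2 - X j 2) / nr (x k - X j) ^ 3)) :=
        fun j => by ring
      simp only [← mul_sub] at *
      simp only [h5, h6, Finset.sum_add_distrib]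
      ring
    have h3 : FG d X Z x i (gv g (x k)) (gv g (x k)) (x k) =
        (∑ l, (1 - c i l) * Tq (x k - x l) (gv g (x k)) (gv g (x k))) -
        ((∑ j, Z j * Tq (x k - X j) (gv g (x k)) (gv g (x k))) -
          Z i * Tq (x k - X i) (gv g (x k)) (gv g (x k))) := by
      unfold FG
      congr 1
      · refine Finset.sum_congr rfl fun l _ => ?_
        simp only [hc]
        unfold ci
        split_ifs
        · ring
        · ring
      · rw [← Finset.sum_erase_add Finset.univ _ (Finset.mem_univ i),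
          ← Finset.sum_erase_add Finset.univ
            (fun j => Z j * Tq (x k - X j) (gv g (x k)) (gv g (x k))) (Finset.mem_univ i)]
        rw [if_pos rfl, add_zero, add_sub_cancel_right]
        refine Finset.sum_congr rfl fun j hj => ?_
        rw [if_neg (Finset.ne_of_mem_erase hj)]
    rw [h1, h3]
    unfold A1
    simp only [mul_sub, Finset.sum_sub_distrib]
    ring
  have e5 : (∑ k, ∑ i, c i k * (FG d X Z x i (gv g (x k)) (gv g (x k)) (x k) -
      ∑ m, gq g (x k) m * farE d X Z x i m (x k))) =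
      (∑ k, ∑ l, (1 - ∑ i, c i k * c i l) * A1 g (x k) (x l)) -
      (∑ k, ∑ j, Z j * A1 g (x k) (X j)) + ∑ k, ∑ i, c i k * (Z i * A1 g (x k) (X i)) := by
    rw [← Finset.sum_sub_distrib, ← Finset.sum_add_distrib]
    refine Finset.sum_congr rfl fun k _ => ?_
    rw [e2, e3, ← Finset.sum_sub_distrib, ← Finset.sum_add_distrib]
    refine Finset.sum_congr rfl fun i _ => ?_
    rw [e4]
    ring
  have e6 : ∑ k, ∑ i, c i k * (Z i * -A1 g (x k) (X i)) =
      -∑ k, ∑ i, c i k * (Z i * A1 g (x k) (X i)) := by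
    rw [← Finset.sum_neg_distrib]
    refine Finset.sum_congr rfl fun k _ => ?_
    rw [← Finset.sum_neg_distrib]
    refine Finset.sum_congr rfl fun i _ => ?_
    ring
  have e7 : D2 X Z g x = (∑ k, ∑ l, if k < l then P2 g x k l else 0) -
      ∑ k, ∑ j, Z j * A1 g (x k) (X j) := by
    unfold D2
    rw [sub_eq_add_neg, ← Finset.sum_neg_distrib]
    congr 1
    refine Finset.sum_congr rfl fun k _ => ?_
    rw [← Finset.sum_neg_distrib]
    refine Finset.sum_congr rfl fun j _ => ?_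
    unfold A1
    ring
  rw [e7, e1, e5, e6]
  ring

/-! ### analytic bounds -/

theorem nrm_le (y : R3) : ‖y‖ ≤ nr y := by
  rw [pi_norm_le_iff_of_nonneg (vir_nn y)]
  intro i
  exact vir_abs y i

theorem lip {f : R3 → ℝ} (hf : ContDiff ℝ (⊤ : ℕ∞) f) {L : ℝ} (hL : ∀ i y, |pd i f y| ≤ L)
    (x y : R3) : |f x - f y| ≤ 3 * L * nr (x - y) := by
  have hL0 : 0 ≤ L := (abs_nonneg _).trans (hL 0 0)
  have hb : ∀ z : R3, ‖fderiv ℝ f z‖ ≤ 3 * L := by
    intro z
    refine ContinuousLinearMap.opNorm_le_bound _ (by positivity) fun v => ?_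
    rw [Pool.Agent.Helper14.PW.poe_fderiv]
    have h1 : ∀ i, |v i * pd i f z| ≤ ‖v‖ * L := by
      intro i
      rw [abs_mul]
      exact mul_le_mul (norm_le_pi_norm v i) (hL i z) (abs_nonneg _) (norm_nonneg _)
    calc ‖∑ i, v i * pd i f z‖ ≤ ∑ i, |v i * pd i f z| := Finset.abs_sum_le_sum_abs _ _
      _ ≤ ∑ _i : Fin 3, ‖v‖ * L := Finset.sum_le_sum fun i _ => h1 i
      _ = 3 * L * ‖v‖ := by
          rw [Fin.sum_univ_three]; ring
  have h2 := Convex.norm_image_sub_le_of_norm_fderiv_le (𝕜 := ℝ) (f := f) (s := Set.univ)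
    (C := 3 * L) (fun z _ => hf.differentiable (by simp) z) (fun z _ => hb z) convex_univ
    (Set.mem_univ y) (Set.mem_univ x)
  rw [Real.norm_eq_abs] at h2
  exact h2.trans (mul_le_mul_of_nonneg_left (nrm_le _) (by positivity))

theorem pd_cd {g : R3 → ℝ} (hg : ContDiff ℝ (⊤ : ℕ∞) g) (i : Fin 3) :
    ContDiff ℝ (⊤ : ℕ∞) (pd i g) := Pool.Agent.Helper14.PW.poe_pd_cd hg i

theorem gv_lip {g : R3 → ℝ} {K ρ : ℝ} (h : Scale g K ρ) (i : Fin 3) (x y : R3) :
    |gv g x i - gv g y i| ≤ 3 * (K / ρ) * nr (x - y) :=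
  lip (pd_cd h.sm i) (fun j z => h.d2 j i z) x y

theorem gq_le {g : R3 → ℝ} {K ρ : ℝ} (h : Scale g K ρ) (i : Fin 3) (y : R3) :
    |gq g y i| ≤ 3 * (K ^ 2 / ρ) := by
  have hK : 0 ≤ K := (abs_nonneg _).trans (h.d1 0 0)
  have h1 : ∀ l, |pd l (pd i g) y * pd l g y| ≤ K / ρ * K := by
    intro l
    rw [abs_mul]
    exact mul_le_mul (h.d2 l i y) (h.d1 l y) (abs_nonneg _) ((abs_nonneg _).trans (h.d2 l i y))
  calc |gq g y i| ≤ ∑ l, |pd l (pd i g) y * pd l g y| := Finset.abs_sum_le_sum_abs _ _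
    _ ≤ ∑ _l : Fin 3, K / ρ * K := Finset.sum_le_sum fun l _ => h1 l
    _ = 3 * (K ^ 2 / ρ) := by
        rw [Fin.sum_univ_three]; ring

theorem gq_cd {g : R3 → ℝ} (hg : ContDiff ℝ (⊤ : ℕ∞) g) (i : Fin 3) :
    ContDiff ℝ (⊤ : ℕ∞) (fun y => gq g y i) := by
  unfold gq
  exact ContDiff.sum fun l _ => (pd_cd (pd_cd hg i) l).mul (pd_cd hg l)

theorem gq_lip {g : R3 → ℝ} {K ρ : ℝ} (h : Scale g K ρ) (i : Fin 3) (x y : R3) :
    |gq g x i - gq g y i| ≤ 3 * (6 * (K ^ 2 / ρ ^ 2)) * nr (x - y) := by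
  have hK : 0 ≤ K := (abs_nonneg _).trans (h.d1 0 0)
  refine lip (gq_cd h.sm i) (fun j z => ?_) x y
  have hp : pd j (fun y => gq g y i) z =
      ∑ l, (pd l (pd i g) z * pd j (pd l g) z + pd l g z * pd j (pd l (pd i g)) z) := by
    have h1 : ∀ l, HasFDerivAt (fun y => pd l (pd i g) y * pd l g y)
        (pd l (pd i g) z • fderiv ℝ (pd l g) z + pd l g z • fderiv ℝ (pd l (pd i g)) z) z := by
      intro l
      exact (((pd_cd (pd_cd h.sm i) l).differentiable (by simp) z).hasFDerivAt).mul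
        (((pd_cd h.sm l).differentiable (by simp) z).hasFDerivAt)
    have h2 : HasFDerivAt (fun y => gq g y i)
        (∑ l, (pd l (pd i g) z • fderiv ℝ (pd l g) z +
          pd l g z • fderiv ℝ (pd l (pd i g)) z)) z :=
      HasFDerivAt.fun_sum fun l _ => h1 l
    have h3 : pd j (fun y => gq g y i) z = fderiv ℝ (fun y => gq g y i) z (Pi.single j 1) := rfl
    rw [h3, h2.fderiv, _root_.sum_apply]
    rfl
  rw [hp]
  have h4 : ∀ l, |pd l (pd i g) z * pd j (pd l g) z + pd l g z * pd j (pd l (pd i g)) z| ≤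
      2 * (K ^ 2 / ρ ^ 2) := by
    intro l
    have h5 : |pd l (pd i g) z * pd j (pd l g) z| ≤ K / ρ * (K / ρ) := by
      rw [abs_mul]
      exact mul_le_mul (h.d2 l i z) (h.d2 j l z) (abs_nonneg _)
        ((abs_nonneg _).trans (h.d2 l i z))
    have h6 : |pd l g z * pd j (pd l (pd i g)) z| ≤ K * (K / ρ ^ 2) := by
      rw [abs_mul]
      exact mul_le_mul (h.d1 l z) (h.d3 j l i z) (abs_nonneg _) hK
    calc |pd l (pd i g) z * pd j (pd l g) z + pd l g z * pd j (pd l (pd i g)) z|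
        ≤ K / ρ * (K / ρ) + K * (K / ρ ^ 2) := (abs_add_le _ _).trans (add_le_add h5 h6)
      _ = 2 * (K ^ 2 / ρ ^ 2) := by
          rw [div_mul_div_comm, mul_div_assoc']; ring
  calc |∑ l, (pd l (pd i g) z * pd j (pd l g) z + pd l g z * pd j (pd l (pd i g)) z)|
      ≤ ∑ l, |pd l (pd i g) z * pd j (pd l g) z + pd l g z * pd j (pd l (pd i g)) z| :=
        Finset.abs_sum_le_sum_abs _ _
    _ ≤ ∑ _l : Fin 3, 2 * (K ^ 2 / ρ ^ 2) := Finset.sum_le_sum fun l _ => h4 l
    _ = 6 * (K ^ 2 / ρ ^ 2) := by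
        rw [Fin.sum_univ_three]; ring

theorem dot_le (v ξ : R3) (a : ℝ) (ha : 0 ≤ a) (hv : ∀ i, |v i| ≤ a) :
    |∑ i, v i * ξ i| ≤ 3 * a * nr ξ := by
  have h1 : ∀ i, |v i * ξ i| ≤ a * nr ξ := by
    intro i
    rw [abs_mul]
    exact mul_le_mul (hv i) (vir_abs ξ i) (abs_nonneg _) ha
  calc |∑ i, v i * ξ i| ≤ ∑ i, |v i * ξ i| := Finset.abs_sum_le_sum_abs _ _
    _ ≤ ∑ _i : Fin 3, a * nr ξ := Finset.sum_le_sum fun i _ => h1 i
    _ = 3 * a * nr ξ := by
        rw [Fin.sum_univ_three]; ring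

theorem Tq_le (ξ v : R3) (a : ℝ) (ha : 0 ≤ a) (hr : 0 < nr ξ) (hv : ∀ i, |v i| ≤ a) :
    Tq ξ v v ≤ 27 * a ^ 2 / nr ξ ^ 3 := by
  have h1 := dot_le v ξ a ha hv
  have h2 : (∑ m, v m * ξ m) * (∑ m, v m * ξ m) ≤ 9 * a ^ 2 * nr ξ ^ 2 := by
    rw [← abs_mul_abs_self]
    have h3 := mul_le_mul h1 h1 (abs_nonneg _) (by positivity)
    calc _ ≤ 3 * a * nr ξ * (3 * a * nr ξ) := h3
      _ = _ := by ring
  have h4 : 0 ≤ (∑ m, v m * v m) / nr ξ ^ 3 := by
    apply div_nonneg _ (by positivity)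
    exact Finset.sum_nonneg fun m _ => mul_self_nonneg _
  unfold Tq
  have h5 : 3 * (∑ m, v m * ξ m) * (∑ m, v m * ξ m) / nr ξ ^ 5 ≤ 27 * a ^ 2 / nr ξ ^ 3 := by
    rw [div_le_div_iff₀ (by positivity) (by positivity)]
    have h6 : 3 * (∑ m, v m * ξ m) * (∑ m, v m * ξ m) ≤ 27 * a ^ 2 * nr ξ ^ 2 := by
      nlinarith
    calc 3 * (∑ m, v m * ξ m) * (∑ m, v m * ξ m) * nr ξ ^ 3
        ≤ 27 * a ^ 2 * nr ξ ^ 2 * nr ξ ^ 3 := mul_le_mul_of_nonneg_right h6 (by positivity)
      _ = 27 * a ^ 2 * nr ξ ^ 5 := by ring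
  linarith

/-- pairs at a short distance -/
theorem P2_le {n : ℕ} {g : R3 → ℝ} {K ρ : ℝ} (h : Scale g K ρ) (hρ : 0 < ρ) (x : Cf n)
    (k l : Fin n) (hr : 0 < nr (x k - x l)) :
    P2 g x k l ≤ 300 * (K ^ 2 / ρ ^ 2) * (1 / nr (x k - x l)) := by
  have hK : 0 ≤ K := (abs_nonneg _).trans (h.d1 0 0)
  set r := nr (x k - x l) with hrdef
  have h1 : Tq (x k - x l) (gv g (x k) - gv g (x l)) (gv g (x k) - gv g (x l)) ≤
      27 * (3 * (K / ρ) * r) ^ 2 / r ^ 3 :=
    Tq_le _ _ _ (by positivity) hr fun i => gv_lip h i _ _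
  have h2 : |∑ i, (gq g (x k) i - gq g (x l) i) * (x k i - x l i)| ≤
      3 * (3 * (6 * (K ^ 2 / ρ ^ 2)) * r) * r :=
    dot_le (fun i => gq g (x k) i - gq g (x l) i) (x k - x l) _ (by positivity)
      fun i => gq_lip h i _ _
  have h3 : -((∑ i, (gq g (x k) i - gq g (x l) i) * (x k i - x l i)) / r ^ 3) ≤
      3 * (3 * (6 * (K ^ 2 / ρ ^ 2)) * r) * r / r ^ 3 := by
    rw [← neg_div]
    apply div_le_div_of_nonneg_right _ (by positivity)
    exact (neg_le_abs _).trans h2
  have h4 : 27 * (3 * (K / ρ) * r) ^ 2 / r ^ 3 = 243 * (K ^ 2 / ρ ^ 2) * (1 / r) := by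
    field_simp
    ring
  have h5 : 3 * (3 * (6 * (K ^ 2 / ρ ^ 2)) * r) * r / r ^ 3 = 54 * (K ^ 2 / ρ ^ 2) * (1 / r) := by
    field_simp
    ring
  rw [h4] at h1
  rw [h5] at h3
  have h6 : 0 ≤ K ^ 2 / ρ ^ 2 * (1 / r) := by positivity
  unfold P2
  linarith

theorem near_sum (h4 : ST_KK) {n M : ℕ} (X : Fin M → R3) (d A : ℝ) (hd : 0 < d) (hA : 0 ≤ A)
    (hS : Sep X d) (x : Cf n) (hx : ∀ k l, k ≠ l → nr (x k - x l) ≠ 0)
    (F : Fin n → Fin n → ℝ) (hF : ∀ k l, k ≠ l → F k l ≤ A * (1 / nr (x k - x l))) :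
    (∑ k, ∑ l, if k < l then (∑ i, ci X (3 / 2 * d) x i k * ci X (3 / 2 * d) x i l) *
        F k l else 0) ≤ A * (Rem (d / 8) x + 16 / d * ∑ i, cnt X (3 / 2 * d) x i ^ 2) := by
  have hN : ∑ k, ∑ l, ∑ i, ci X (3 / 2 * d) x i k * ci X (3 / 2 * d) x i l =
      ∑ i, cnt X (3 / 2 * d) x i ^ 2 := by
    have h1 : ∀ i, cnt X (3 / 2 * d) x i ^ 2 =
        ∑ k, ∑ l, ci X (3 / 2 * d) x i k * ci X (3 / 2 * d) x i l := by
      intro i
      rw [pow_two, ← Finset.sum_mul_sum]
      rfl
    simp_rw [h1]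
    rw [Finset.sum_comm]
    rw [Finset.sum_comm]
    have h2 : ∀ k, ∑ l, ∑ i, ci X (3 / 2 * d) x i k * ci X (3 / 2 * d) x i l =
        ∑ i, ∑ l, ci X (3 / 2 * d) x i k * ci X (3 / 2 * d) x i l := fun k => Finset.sum_comm
    rw [Finset.sum_congr rfl fun k _ => h2 k, Finset.sum_comm]
  rw [← hN]
  unfold Rem
  rw [Finset.mul_sum, ← Finset.sum_add_distrib, Finset.mul_sum]
  refine Finset.sum_le_sum fun k _ => ?_
  rw [Finset.mul_sum, ← Finset.sum_add_distrib, Finset.mul_sum]
  refine Finset.sum_le_sum fun l _ => ?_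
  have hN0 := ci_N_nn X d x k l
  have hN1 := ci_le1 X d hd hS x k l
  set N := ∑ i, ci X (3 / 2 * d) x i k * ci X (3 / 2 * d) x i l with hNdef
  by_cases hkl : k < l
  · rw [if_pos hkl, if_pos hkl]
    have hr0 := hx k l hkl.ne
    obtain ⟨-, hK2, hK3, hK4⟩ := h4 (d / 8) (x k - x l) (by positivity)
    have hK2' := hK2 hr0
    have e16 : 2 / (d / 8) = 16 / d := by
      field_simp
      norm_num
    rw [e16] at hK4
    have h7 : N * F k l ≤ N * (A * (1 / nr (x k - x l))) :=
      mul_le_mul_of_nonneg_left (hF k l hkl.ne) hN0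
    refine h7.trans ?_
    have h8 : N * (1 / nr (x k - x l)) ≤
        1 / nr (x k - x l) - Kf (d / 8) (x k - x l) + 16 / d * N := by
      have h9 : N * (1 / nr (x k - x l) - Kf (d / 8) (x k - x l)) ≤
          1 * (1 / nr (x k - x l) - Kf (d / 8) (x k - x l)) :=
        mul_le_mul_of_nonneg_right hN1 (by linarith)
      have h10 : N * Kf (d / 8) (x k - x l) ≤ N * (16 / d) :=
        mul_le_mul_of_nonneg_left hK4 hN0
      nlinarith
    have h11 := mul_le_mul_of_nonneg_left h8 hA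
    calc N * (A * (1 / nr (x k - x l))) = A * (N * (1 / nr (x k - x l))) := by ring
      _ ≤ _ := h11
  · rw [if_neg hkl, if_neg hkl]
    positivity

/-- the general bound, with the own nuclei left -/
theorem gen (h1 : ST_NBZ) (h2 : ST_FFZ) (h3 : ST_FGZ) (h5 : ST_DIP) (h4 : ST_KK) :
    ∀ d : ℝ, 0 < d → d ≤ 1 → ∃ C : ℝ, 0 < C ∧ ∀ (z K ρ : ℝ) (n M : ℕ)
  (X : Fin M → R3) (Z : Fin M → ℝ) (g : R3 → ℝ) (x : Cf n), Dat d z n X Z → 1 ≤ K → 0 < ρ →
  ρ ≤ d → Scale g K ρ →
  (∀ y, (∀ j, d / 2 < nr (y - X j)) → ∀ i, pd i g y = 0) → Dist X x →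
  D2 X Z g x ≤ C * (K ^ 2 / ρ ^ 2) * (z ^ 2 * M + Dn (d / 8) X Z x + Rem (d / 8) x) +
    ∑ k, ∑ i, ci X (3 / 2 * d) x i k * (Z i * -A1 g (x k) (X i)) := by
  intro d hd hd1
  obtain ⟨C1, hC1, hNB⟩ := h1 d hd hd1
  obtain ⟨C2, hC2, hFF⟩ := h2 d hd hd1
  obtain ⟨C3, hC3, hFG⟩ := h3 d hd hd1
  obtain ⟨C4, hC4, hDI⟩ := h5 d hd hd1
  refine ⟨300 + 300 * (16 / d) * C1 + (C3 + 9) * (C1 + C2) + 2 * C4 * C1, by positivity, ?_⟩
  intro z K ρ n M X Z g x hDat hK hρ hρd hSc hg hx
  have hS := hDat.sep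
  have hK0 : 0 ≤ K := by linarith
  set W : ℝ := z ^ 2 * M + Dn (d / 8) X Z x with hW
  have hDn := dn_nn (d / 8) X Z x
  have hW0 : 0 ≤ W := by positivity
  have hRem : 0 ≤ Rem (d / 8) x := by
    unfold Rem
    refine Finset.sum_nonneg fun k _ => Finset.sum_nonneg fun l _ => ?_
    split_ifs with hkl
    · obtain ⟨-, hK2, -, -⟩ := h4 (d / 8) (x k - x l) (by positivity)
      have := hK2 (hx.1 k l hkl.ne)
      linarith
    · exact le_rfl
  have hcnt := hNB z n M X Z x hDat
  obtain ⟨e, he, hesum⟩ := hFF z n M X Z x hDat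
  set q : ℝ := K ^ 2 / ρ ^ 2 with hq
  have hq0 : 0 ≤ q := by positivity
  have hKq : K ^ 2 ≤ q := by
    rw [hq, le_div_iff₀ (by positivity)]
    have : ρ ^ 2 ≤ 1 := by nlinarith
    calc K ^ 2 * ρ ^ 2 ≤ K ^ 2 * 1 := mul_le_mul_of_nonneg_left this (by positivity)
      _ = K ^ 2 := mul_one _
  have hKρ : K ^ 2 / ρ ≤ q := by
    rw [hq, div_le_div_iff₀ hρ (by positivity)]
    have : ρ ^ 2 ≤ ρ := by nlinarith
    exact mul_le_mul_of_nonneg_left this (by positivity)
  set Q : ℝ := ∑ i, cnt X (3 / 2 * d) x i ^ 2 with hQ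
  -- near pairs
  have b1 := near_sum h4 X d (300 * q) hd (by positivity) hS x hx.1 (P2 g x) (fun k l hkl => by
    have hr : 0 < nr (x k - x l) := lt_of_le_of_ne (vir_nn _) (Ne.symm (hx.1 k l hkl))
    exact P2_le hSc hρ x k l hr)
  -- far field
  have b2 : (∑ k, ∑ i, ci X (3 / 2 * d) x i k * (FG d X Z x i (gv g (x k)) (gv g (x k)) (x k) -
        ∑ m, gq g (x k) m * farE d X Z x i m (x k))) ≤ (C3 + 9) * q * (Q + ∑ i, e i ^ 2) := by
    have h6 : ∀ k i, ci X (3 / 2 * d) x i k * (FG d X Z x i (gv g (x k)) (gv g (x k)) (x k) -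
        ∑ m, gq g (x k) m * farE d X Z x i m (x k)) ≤
        (C3 + 9) * q * (ci X (3 / 2 * d) x i k * e i) := by
      intro k i
      by_cases hc : nr (x k - X i) < 3 / 2 * d
      · have hc1 : ci X (3 / 2 * d) x i k = 1 := by
          unfold ci
          rw [if_pos hc]
        rw [hc1, one_mul, one_mul]
        have he0 : 0 ≤ e i := by
          have h0 : nr (X i - X i) ≤ d := by
            rw [sub_self]
            have : nr (0 : R3) = 0 := by
              unfold nr
              simp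
            rw [this]
            exact hd.le
          exact (abs_nonneg _).trans (he i 0 (X i) h0)
        by_cases hn : nr (x k - X i) ≤ d / 2
        · have h7 : |FG d X Z x i (gv g (x k)) (gv g (x k)) (x k)| ≤ C3 * K ^ 2 * e i :=
            hFG n M X Z x i (e i) K (gv g (x k)) (gv g (x k)) (x k) hS (fun m y hy => he i m y hy)
              (fun m => hSc.d1 m _) (fun m => hSc.d1 m _) hn
          have h8 : |∑ m, gq g (x k) m * farE d X Z x i m (x k)| ≤ 9 * (K ^ 2 / ρ) * e i := by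
            have h9 : ∀ m, |gq g (x k) m * farE d X Z x i m (x k)| ≤ 3 * (K ^ 2 / ρ) * e i := by
              intro m
              rw [abs_mul]
              exact mul_le_mul (gq_le hSc m _) (he i m _ (by linarith)) (abs_nonneg _)
                (by positivity)
            calc |∑ m, gq g (x k) m * farE d X Z x i m (x k)|
                ≤ ∑ m, |gq g (x k) m * farE d X Z x i m (x k)| :=
                  Finset.abs_sum_le_sum_abs _ _
              _ ≤ ∑ _m : Fin 3, 3 * (K ^ 2 / ρ) * e i := Finset.sum_le_sum fun m _ => h9 m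
              _ = 9 * (K ^ 2 / ρ) * e i := by
                  rw [Fin.sum_univ_three]; ring
          have h10 : C3 * K ^ 2 * e i ≤ C3 * q * e i := by
            apply mul_le_mul_of_nonneg_right _ he0
            exact mul_le_mul_of_nonneg_left hKq hC3.le
          have h11 : 9 * (K ^ 2 / ρ) * e i ≤ 9 * q * e i := by
            apply mul_le_mul_of_nonneg_right _ he0
            linarith
          have h12 := (abs_le.1 h7).2
          have h13 := (abs_le.1 h8).1
          have h14 : (C3 + 9) * q * e i = C3 * q * e i + 9 * q * e i := by ring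
          linarith
        · push Not at hn
          have hfar : ∀ j, d / 2 < nr (x k - X j) := by
            intro j
            by_cases hj : j = i
            · rw [hj]; exact hn
            · have h5 := hS i j (Ne.symm hj)
              have h6 := vir_tri (X i) (X j) (x k)
              linarith
          have h7 : gv g (x k) = 0 := by
            funext m
            exact hg _ hfar m
          have h8 : ∀ m, gq g (x k) m = 0 := by
            intro m
            unfold gq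
            refine Finset.sum_eq_zero fun l _ => ?_
            rw [hg _ hfar l, mul_zero]
          rw [h7]
          have h9 : FG d X Z x i 0 0 (x k) = 0 := by
            unfold FG
            simp [Tq_zv]
          rw [h9]
          simp only [h8, zero_mul, Finset.sum_const_zero, sub_zero]
          positivity
      · have hc0 : ci X (3 / 2 * d) x i k = 0 := by
          unfold ci
          rw [if_neg hc]
        rw [hc0, zero_mul, zero_mul, mul_zero]
    have h7 : ∑ k, ∑ i, (C3 + 9) * q * (ci X (3 / 2 * d) x i k * e i) =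
        (C3 + 9) * q * ∑ i, cnt X (3 / 2 * d) x i * e i := by
      rw [Finset.sum_comm, Finset.mul_sum]
      refine Finset.sum_congr rfl fun i _ => ?_
      have : cnt X (3 / 2 * d) x i = ∑ k, ci X (3 / 2 * d) x i k := rfl
      rw [this, Finset.sum_mul, Finset.mul_sum]
    have h8 : ∑ i, cnt X (3 / 2 * d) x i * e i ≤ Q + ∑ i, e i ^ 2 := by
      rw [hQ, ← Finset.sum_add_distrib]
      refine Finset.sum_le_sum fun i _ => ?_
      nlinarith [sq_nonneg (cnt X (3 / 2 * d) x i - e i), sq_nonneg (cnt X (3 / 2 * d) x i),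
        sq_nonneg (e i)]
    calc _ ≤ ∑ k, ∑ i, (C3 + 9) * q * (ci X (3 / 2 * d) x i k * e i) :=
          Finset.sum_le_sum fun k _ => Finset.sum_le_sum fun i _ => h6 k i
      _ = _ := h7
      _ ≤ _ := mul_le_mul_of_nonneg_left h8 (by positivity)
  -- dipoles
  have b3 : -(∑ k, ∑ l, if k < l then
        (1 - ∑ i, ci X (3 / 2 * d) x i k * ci X (3 / 2 * d) x i l) *
          Tq (x k - x l) (gv g (x k)) (gv g (x l)) else 0) ≤ C4 * K ^ 2 * Q := by
    have h6 := hDI n M X x (fun k => gv g (x k)) K hS (fun k m => hSc.d1 m _)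
      (fun k hk => by
        funext m
        exact hg _ hk m)
    refine le_trans (le_of_eq ?_) h6
    congr 1
    refine Finset.sum_congr rfl fun k _ => Finset.sum_congr rfl fun l _ => ?_
    by_cases hkl : k < l
    · rw [if_pos hkl]
      by_cases hk : ∀ j, d / 2 < nr (x k - X j)
      · have h7 : gv g (x k) = 0 := by
          funext m
          exact hg _ hk m
        have h8 : Tq (x k - x l) (gv g (x k)) (gv g (x l)) = 0 := by
          rw [h7]
          unfold Tq
          simp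
        rw [h8, mul_zero]
        simp
      · by_cases hl : ∀ j, d / 2 < nr (x l - X j)
        · have h7 : gv g (x l) = 0 := by
            funext m
            exact hg _ hl m
          have h8 : Tq (x k - x l) (gv g (x k)) (gv g (x l)) = 0 := by
            rw [h7]
            unfold Tq
            simp
          rw [h8, mul_zero]
          simp
        · push Not at hk hl
          obtain ⟨i, hi⟩ := hk
          obtain ⟨j, hj⟩ := hl
          by_cases hij : i = j
          · subst hij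
            have h7 := vir_tri (x k) (x l) (X i)
            rw [vir_neg (X i) (x k), vir_neg (X i) (x l)] at h7
            have h8 : ¬ (k < l ∧ d < nr (x k - x l)) := fun h => by linarith [h.2]
            rw [if_neg h8]
            have h9 : ∑ i', ci X (3 / 2 * d) x i' k * ci X (3 / 2 * d) x i' l = 1 := by
              have h10 := ci_le1 X d hd hS x k l
              have h11 : ci X (3 / 2 * d) x i k * ci X (3 / 2 * d) x i l = 1 := by
                unfold ci
                rw [if_pos (by linarith), if_pos (by linarith), one_mul]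
              have h12 := Finset.single_le_sum (f := fun i' =>
                ci X (3 / 2 * d) x i' k * ci X (3 / 2 * d) x i' l)
                (fun i' _ => mul_nonneg (ci_nn _ _ _ _ _) (ci_nn _ _ _ _ _)) (Finset.mem_univ i)
              have h13 : ci X (3 / 2 * d) x i k * ci X (3 / 2 * d) x i l ≤
                  ∑ i', ci X (3 / 2 * d) x i' k * ci X (3 / 2 * d) x i' l := h12
              linarith
            rw [h9]
            ring
          · have h7 := hS i j hij
            have h8 := vir_tri (X i) (X j) (x k)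
            have h9 : nr (x k - X j) ≤ nr (x k - x l) + nr (x l - X j) := by
              have h10 := vir_tri (x k) (X j) (x l)
              rw [vir_neg (x l) (x k)] at h10
              exact h10
            have h10 : d < nr (x k - x l) := by linarith
            rw [if_pos ⟨hkl, h10⟩]
            have h11 : ∑ i', ci X (3 / 2 * d) x i' k * ci X (3 / 2 * d) x i' l = 0 := by
              refine Finset.sum_eq_zero fun i' _ => ?_
              by_cases hi' : i' = i
              · subst hi'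
                have h12 := ci_dis X d hd hS x i' j hij l
                have h13 : ci X (3 / 2 * d) x j l = 1 := by
                  unfold ci
                  rw [if_pos (by linarith)]
                rw [h13, mul_one] at h12
                rw [h12, mul_zero]
              · have h12 := ci_dis X d hd hS x i' i hi' k
                have h13 : ci X (3 / 2 * d) x i k = 1 := by
                  unfold ci
                  rw [if_pos (by linarith)]
                rw [h13, mul_one] at h12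
                rw [h12, zero_mul]
            rw [h11]
            ring
    · rw [if_neg hkl, if_neg (fun h => hkl h.1)]
  rw [D2_split X Z d hd hS g hg x]
  have hQW : Q ≤ C1 * W := hcnt
  have hEW : ∑ i, e i ^ 2 ≤ C2 * W := hesum
  have f1 : 300 * q * (Rem (d / 8) x + 16 / d * Q) ≤
      300 * q * (Rem (d / 8) x + 16 / d * (C1 * W)) := by
    apply mul_le_mul_of_nonneg_left _ (by positivity)
    have := mul_le_mul_of_nonneg_left hQW (show 0 ≤ 16 / d by positivity)
    linarith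
  have f2 : (C3 + 9) * q * (Q + ∑ i, e i ^ 2) ≤ (C3 + 9) * q * (C1 * W + C2 * W) :=
    mul_le_mul_of_nonneg_left (by linarith) (by positivity)
  have f3 : C4 * K ^ 2 * Q ≤ C4 * q * (C1 * W) := by
    apply mul_le_mul _ hQW (Finset.sum_nonneg fun i _ => sq_nonneg _) (by positivity)
    exact mul_le_mul_of_nonneg_left hKq hC4.le
  have f4 : 0 ≤ q * W := by positivity
  have f5 : 0 ≤ q * Rem (d / 8) x := by positivity
  have f6 : (300 + 300 * (16 / d) * C1 + (C3 + 9) * (C1 + C2) + 2 * C4 * C1) * q *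
      (W + Rem (d / 8) x) =
      300 * (q * W) + (300 * q * (Rem (d / 8) x + 16 / d * (C1 * W))) +
      (300 * (16 / d) * C1) * (q * Rem (d / 8) x) +
      (C3 + 9) * q * (C1 * W + C2 * W) + (C3 + 9) * (C1 + C2) * (q * Rem (d / 8) x) +
      2 * (C4 * q * (C1 * W)) + 2 * C4 * C1 * (q * Rem (d / 8) x) := by ring
  have f7 : 0 ≤ (300 * (16 / d) * C1) * (q * Rem (d / 8) x) := by positivity
  have f8 : 0 ≤ (C3 + 9) * (C1 + C2) * (q * Rem (d / 8) x) := by positivity
  have f9 : 0 ≤ 2 * C4 * C1 * (q * Rem (d / 8) x) := by positivity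
  rw [f6]
  linarith

/-! ### the own nucleus -/

theorem own_pt {g : R3 → ℝ} {K ρ : ℝ} (h : Scale g K ρ) (hρ : 0 < ρ) (y p : R3)
    (hr : ρ ≤ nr (y - p)) : -A1 g y p ≤ 12 * (K ^ 2 / ρ ^ 2) * (1 / nr (y - p)) := by
  have hK : 0 ≤ K := (abs_nonneg _).trans (h.d1 0 0)
  set r := nr (y - p) with hrdef
  have hr0 : 0 < r := lt_of_lt_of_le hρ hr
  have h2 : |∑ i, gq g y i * (y i - p i)| ≤ 3 * (3 * (K ^ 2 / ρ)) * r :=
    dot_le (gq g y) (y - p) _ (by positivity) fun i => gq_le h i y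
  have h3 : (∑ i, gq g y i * (y i - p i)) / r ^ 3 ≤ 3 * (3 * (K ^ 2 / ρ)) * r / r ^ 3 :=
    div_le_div_of_nonneg_right ((le_abs_self _).trans h2) (by positivity)
  have h4 : 3 * (3 * (K ^ 2 / ρ)) * r / r ^ 3 ≤ 9 * (K ^ 2 / ρ ^ 2) * (1 / r) := by
    have e1 : 3 * (3 * (K ^ 2 / ρ)) * r / r ^ 3 = 9 * K ^ 2 / (ρ * r ^ 2) := by
      field_simp
      ring
    have e2 : 9 * (K ^ 2 / ρ ^ 2) * (1 / r) = 9 * K ^ 2 / (ρ ^ 2 * r) := by
      field_simp
    rw [e1, e2]
    apply div_le_div_of_nonneg_left (by positivity) (by positivity)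
    calc ρ ^ 2 * r = ρ * ρ * r := by ring
      _ ≤ ρ * r * r := by
          apply mul_le_mul_of_nonneg_right _ hr0.le
          exact mul_le_mul_of_nonneg_left hr hρ.le
      _ = ρ * r ^ 2 := by ring
  have h5 : -Tq (y - p) (gv g y) (gv g y) ≤ 3 * K ^ 2 / r ^ 3 := by
    unfold Tq
    have h6 : ∑ m, gv g y m * gv g y m ≤ 3 * K ^ 2 := by
      have h7 : ∀ m, gv g y m * gv g y m ≤ K ^ 2 := by
        intro m
        have h8 : |gv g y m| ≤ K := h.d1 m y
        rw [← abs_mul_abs_self, pow_two]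
        exact mul_le_mul h8 h8 (abs_nonneg _) hK
      calc ∑ m, gv g y m * gv g y m ≤ ∑ _m : Fin 3, K ^ 2 := Finset.sum_le_sum fun m _ => h7 m
        _ = 3 * K ^ 2 := by
            rw [Fin.sum_univ_three]; ring
    have h7 : (∑ m, gv g y m * gv g y m) / r ^ 3 ≤ 3 * K ^ 2 / r ^ 3 :=
      div_le_div_of_nonneg_right h6 (by positivity)
    have h8 : 0 ≤ 3 * (∑ m, gv g y m * (y - p) m) * (∑ m, gv g y m * (y - p) m) / r ^ 5 := by
      apply div_nonneg _ (by positivity)
      rw [mul_assoc]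
      exact mul_nonneg (by norm_num) (mul_self_nonneg _)
    rw [← hrdef]
    linarith
  have h6 : 3 * K ^ 2 / r ^ 3 ≤ 3 * (K ^ 2 / ρ ^ 2) * (1 / r) := by
    have e2 : 3 * (K ^ 2 / ρ ^ 2) * (1 / r) = 3 * K ^ 2 / (ρ ^ 2 * r) := by
      field_simp
    rw [e2]
    apply div_le_div_of_nonneg_left (by positivity) (by positivity)
    calc ρ ^ 2 * r ≤ r ^ 2 * r := by
          apply mul_le_mul_of_nonneg_right _ hr0.le
          exact pow_le_pow_left₀ hρ.le hr 2
      _ = r ^ 3 := by ring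
  unfold A1
  linarith

/-- the sum of the own terms -/
theorem own_sum {n M : ℕ} (X : Fin M → R3) (Z : Fin M → ℝ) (z d B : ℝ) (hd : 0 < d)
    (hB : 0 ≤ B) (hz : 0 ≤ z) (hS : Sep X d) (hZ0 : ∀ j, 0 ≤ Z j) (hZz : ∀ j, Z j ≤ z)
    (x : Cf n) (hx : ∀ k j, nr (x k - X j) ≠ 0) (F : R3 → R3 → ℝ)
    (h1 : ∀ k i, nr (x k - X i) ≤ d / 2 → F (x k) (X i) ≤ B * (1 / nr (x k - X i)))
    (h2 : ∀ k p, (∀ j, d / 2 < nr (x k - X j)) → F (x k) p = 0) :
    ∑ k, ∑ i, ci X (3 / 2 * d) x i k * (Z i * F (x k) (X i)) ≤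
      B * (z * ∑ k, near1 X d (x k)) := by
  rw [Finset.mul_sum, Finset.mul_sum]
  refine Finset.sum_le_sum fun k _ => ?_
  unfold near1
  rw [Finset.mul_sum, Finset.mul_sum]
  refine Finset.sum_le_sum fun i _ => ?_
  have hrhs : 0 ≤ B * (z * (if nr (x k - X i) < d then 1 / nr (x k - X i) else 0)) := by
    have := vir_nn (x k - X i)
    split_ifs <;> positivity
  by_cases hn : nr (x k - X i) ≤ d / 2
  · rw [if_pos (by linarith)]
    have hc1 : ci X (3 / 2 * d) x i k = 1 := by
      unfold ci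
      rw [if_pos (by linarith)]
    have hr : 0 < nr (x k - X i) := lt_of_le_of_ne (vir_nn _) (Ne.symm (hx k i))
    rw [hc1, one_mul]
    have h3 := h1 k i hn
    calc Z i * F (x k) (X i) ≤ Z i * (B * (1 / nr (x k - X i))) :=
          mul_le_mul_of_nonneg_left h3 (hZ0 i)
      _ ≤ z * (B * (1 / nr (x k - X i))) := mul_le_mul_of_nonneg_right (hZz i) (by positivity)
      _ = B * (z * (1 / nr (x k - X i))) := by ring
  · push Not at hn
    refine le_trans (le_of_eq ?_) hrhs
    by_cases hc : nr (x k - X i) < 3 / 2 * d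
    · have hfar : ∀ j, d / 2 < nr (x k - X j) := by
        intro j
        by_cases hj : j = i
        · rw [hj]; exact hn
        · have h5 := hS i j (Ne.symm hj)
          have h6 := vir_tri (X i) (X j) (x k)
          linarith
      rw [h2 k (X i) hfar]
      ring
    · have hc0 : ci X (3 / 2 * d) x i k = 0 := by
        unfold ci
        rw [if_neg hc]
      rw [hc0, zero_mul]

theorem V2S (h1 : ST_NBZ) (h2 : ST_FFZ) (h3 : ST_FGZ) (h5 : ST_DIP) (h4 : ST_KK) : ST_V2S := by
  intro d hd hd1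
  obtain ⟨C, hC, hgen⟩ := gen h1 h2 h3 h5 h4 d hd hd1
  refine ⟨C + 12, by positivity, ?_⟩
  intro z K ρ n M X Z g x hDat hK hρ hρd hSc hin hout hx
  have hg := hgen z K ρ n M X Z g x hDat hK hρ hρd hSc hout hx
  have hK0 : 0 ≤ K := by linarith
  set q : ℝ := K ^ 2 / ρ ^ 2 with hq
  have hq0 : 0 ≤ q := by positivity
  have hz0 : 0 ≤ z := le_trans zero_le_one hDat.z1
  have hown := own_sum X Z z d (12 * q) hd (by positivity) hz0 hDat.sep hDat.nuc.1 hDat.le x hx.2
    (fun y p => -A1 g y p) (fun k i hn => by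
      have hr : 0 < nr (x k - X i) := lt_of_le_of_ne (vir_nn _) (Ne.symm (hx.2 k i))
      by_cases h6 : nr (x k - X i) < ρ
      · show -A1 g (x k) (X i) ≤ _
        rw [A1_zero g (x k) (X i) (hin i (x k) h6), neg_zero]
        positivity
      · exact own_pt hSc hρ _ _ (not_lt.1 h6))
    (fun k p hk => by
      show -A1 g (x k) p = 0
      rw [A1_zero g (x k) p (hout (x k) hk), neg_zero])
  have hDn := dn_nn (d / 8) X Z x
  have hRem : 0 ≤ Rem (d / 8) x := by
    unfold Rem
    refine Finset.sum_nonneg fun k _ => Finset.sum_nonneg fun l _ => ?_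
    split_ifs with hkl
    · obtain ⟨-, hK2, -, -⟩ := h4 (d / 8) (x k - x l) (by positivity)
      have := hK2 (hx.1 k l hkl.ne)
      linarith
    · exact le_rfl
  have hnear : 0 ≤ ∑ k, near1 X d (x k) := by
    refine Finset.sum_nonneg fun k _ => ?_
    unfold near1
    refine Finset.sum_nonneg fun j _ => ?_
    have := vir_nn (x k - X j)
    split_ifs <;> positivity
  have e1 : (C + 12) * K ^ 2 / ρ ^ 2 * Loc d z X Z x =
      C * q * (z ^ 2 * M + Dn (d / 8) X Z x + Rem (d / 8) x) +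
      12 * (q * (z ^ 2 * M + Dn (d / 8) X Z x + Rem (d / 8) x)) +
      C * (q * (z * ∑ k, near1 X d (x k))) + 12 * q * (z * ∑ k, near1 X d (x k)) := by
    unfold Loc
    rw [hq]
    ring
  rw [e1]
  have e2 : 0 ≤ 12 * (q * (z ^ 2 * M + Dn (d / 8) X Z x + Rem (d / 8) x)) := by positivity
  have e3 : 0 ≤ C * (q * (z * ∑ k, near1 X d (x k))) := by positivity
  linarith

theorem pd_const {f : R3 → ℝ} {y : R3} {c : ℝ} (h : f =ᶠ[nhds y] fun _ => c) (l : Fin 3) :
    pd l f y = 0 := by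
  unfold pd
  rw [h.fderiv_eq]
  simp

theorem nr_cont : Continuous nr := by
  unfold nr
  fun_prop

/-- inside the balls the own nucleus cancels -/
theorem own_in (g : Fin 3 → R3 → ℝ) (p : R3) (ρ : ℝ)
    (hg : ∀ m y, nr (y - p) < ρ → ∀ i, pd i (g m) y = if i = m then 1 else 0)
    (y : R3) (hy : nr (y - p) < ρ) (hr : 0 < nr (y - p)) : ∑ m, -A1 (g m) y p = 0 := by
  have hopen : IsOpen {y' : R3 | nr (y' - p) < ρ} :=
    isOpen_lt (nr_cont.comp (continuous_id.sub continuous_const)) continuous_const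
  have hq : ∀ m i, gq (g m) y i = 0 := by
    intro m i
    unfold gq
    refine Finset.sum_eq_zero fun l _ => ?_
    have h1 : pd i (g m) =ᶠ[nhds y] fun _ => if i = m then 1 else 0 := by
      filter_upwards [hopen.mem_nhds hy] with y' hy'
      exact hg m y' hy' i
    rw [pd_const h1 l, zero_mul]
  have hs := vir_sq (y - p)
  simp only [Fin.sum_univ_three, Pi.sub_apply] at hs
  have hA : ∀ m, -A1 (g m) y p = 1 / nr (y - p) ^ 3 - 3 * (y m - p m) ^ 2 / nr (y - p) ^ 5 := by
    intro m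
    unfold A1 Tq gv
    simp only [hq, zero_mul, Finset.sum_const_zero, zero_div, sub_zero, Pi.sub_apply]
    have h1 : ∀ i, pd i (g m) y = if i = m then 1 else 0 := hg m y hy
    simp only [h1, ite_mul, one_mul, zero_mul, Finset.sum_ite_eq', Finset.mem_univ, if_true,
      mul_ite, mul_one, mul_zero]
    ring
  simp only [hA, Fin.sum_univ_three]
  set r := nr (y - p) with hrdef
  have e1 : 1 / r ^ 3 = r ^ 2 / r ^ 5 := by
    field_simp
  rw [e1, hs]
  ring

theorem V2I (h1 : ST_NBZ) (h2 : ST_FFZ) (h3 : ST_FGZ) (h5 : ST_DIP) (h4 : ST_KK) : ST_V2I := by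
  intro d hd hd1
  obtain ⟨C, hC, hgen⟩ := gen h1 h2 h3 h5 h4 d hd hd1
  refine ⟨3 * C + 36, by positivity, ?_⟩
  intro z K ρ n M X Z g x hDat hK hρ hρd hSc hin hout hx
  have hg := fun m => hgen z K ρ n M X Z (g m) x hDat hK hρ hρd (hSc m) (hout m) hx
  have hK0 : 0 ≤ K := by linarith
  set q : ℝ := K ^ 2 / ρ ^ 2 with hq
  have hq0 : 0 ≤ q := by positivity
  have hz0 : 0 ≤ z := le_trans zero_le_one hDat.z1
  have hown := own_sum X Z z d (36 * q) hd (by positivity) hz0 hDat.sep hDat.nuc.1 hDat.le x hx.2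
    (fun y p => ∑ m, -A1 (g m) y p) (fun k i hn => by
      have hr : 0 < nr (x k - X i) := lt_of_le_of_ne (vir_nn _) (Ne.symm (hx.2 k i))
      show ∑ m, -A1 (g m) (x k) (X i) ≤ _
      by_cases h6 : nr (x k - X i) < ρ
      · rw [own_in g (X i) ρ (fun m y hy => hin m i y hy) (x k) h6 hr]
        positivity
      · have h7 : ∀ m, -A1 (g m) (x k) (X i) ≤ 12 * q * (1 / nr (x k - X i)) :=
          fun m => own_pt (hSc m) hρ _ _ (not_lt.1 h6)
        calc ∑ m, -A1 (g m) (x k) (X i) ≤ ∑ _m : Fin 3, 12 * q * (1 / nr (x k - X i)) :=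
              Finset.sum_le_sum fun m _ => h7 m
          _ = 36 * q * (1 / nr (x k - X i)) := by
              rw [Fin.sum_univ_three]; ring)
    (fun k p hk => by
      show ∑ m, -A1 (g m) (x k) p = 0
      refine Finset.sum_eq_zero fun m _ => ?_
      rw [A1_zero (g m) (x k) p (hout m (x k) hk), neg_zero])
  have hsplit : ∑ m, ∑ k, ∑ i, ci X (3 / 2 * d) x i k * (Z i * -A1 (g m) (x k) (X i)) =
      ∑ k, ∑ i, ci X (3 / 2 * d) x i k * (Z i * ∑ m, -A1 (g m) (x k) (X i)) := by
    rw [Finset.sum_comm]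
    refine Finset.sum_congr rfl fun k _ => ?_
    rw [Finset.sum_comm]
    refine Finset.sum_congr rfl fun i _ => ?_
    rw [Finset.mul_sum, Finset.mul_sum]
  have hDn := dn_nn (d / 8) X Z x
  have hRem : 0 ≤ Rem (d / 8) x := by
    unfold Rem
    refine Finset.sum_nonneg fun k _ => Finset.sum_nonneg fun l _ => ?_
    split_ifs with hkl
    · obtain ⟨-, hK2, -, -⟩ := h4 (d / 8) (x k - x l) (by positivity)
      have := hK2 (hx.1 k l hkl.ne)
      linarith
    · exact le_rfl
  have hnear : 0 ≤ ∑ k, near1 X d (x k) := by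
    refine Finset.sum_nonneg fun k _ => ?_
    unfold near1
    refine Finset.sum_nonneg fun j _ => ?_
    have := vir_nn (x k - X j)
    split_ifs <;> positivity
  have hsum : ∑ m, D2 X Z (g m) x ≤ ∑ m, (C * q *
      (z ^ 2 * M + Dn (d / 8) X Z x + Rem (d / 8) x) +
      ∑ k, ∑ i, ci X (3 / 2 * d) x i k * (Z i * -A1 (g m) (x k) (X i))) :=
    Finset.sum_le_sum fun m _ => hg m
  rw [Finset.sum_add_distrib, hsplit] at hsum
  have e0 : ∑ _m : Fin 3, C * q * (z ^ 2 * M + Dn (d / 8) X Z x + Rem (d / 8) x) =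
      3 * (C * q * (z ^ 2 * M + Dn (d / 8) X Z x + Rem (d / 8) x)) := by
    rw [Fin.sum_univ_three]; ring
  rw [e0] at hsum
  have e1 : (3 * C + 36) * K ^ 2 / ρ ^ 2 * Loc d z X Z x =
      3 * (C * q * (z ^ 2 * M + Dn (d / 8) X Z x + Rem (d / 8) x)) +
      36 * (q * (z ^ 2 * M + Dn (d / 8) X Z x + Rem (d / 8) x)) +
      3 * C * (q * (z * ∑ k, near1 X d (x k))) + 36 * q * (z * ∑ k, near1 X d (x k)) := by
    unfold Loc
    rw [hq]
    ring
  rw [e1]
  have e2 : 0 ≤ 36 * (q * (z ^ 2 * M + Dn (d / 8) X Z x + Rem (d / 8) x)) := by positivity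
  have e3 : 0 ≤ 3 * C * (q * (z * ∑ k, near1 X d (x k))) := by positivity
  linarith

end Pool.Agent.Helper82.HV
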